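import Pool.Agent.H60.Clifford.Spectrum
import Pool.Agent.H60.Clifford.Topology

/-!
# MP_782c7c_an: a Clifford spectrum that is a one-manifold

There are three Hermitian `8 × 8` matrices whose Clifford spectrum is the disjoint union of the two
(linked) circles `x ^ 2 + y ^ 2 = 5, z = 0` and `(x - 2) ^ 2 + z ^ 2 = 5, y = 0`.
-/

namespace Pool.Agent.Results.MP_782c7c_an.TwoCircles

open Pool.Agent.H60.Clifford

theorem result : ∃ A : Fin 3 → Matrix (Fin 8) (Fin 8) ℂ,
    (∀ j, (A j).IsHermitian) ∧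
    cliffordSpectrum A = {q : EuclideanSpace ℝ (Fin 3) |
      (q 0 ^ 2 + q 1 ^ 2 = 5 ∧ q 2 = 0) ∨ ((q 0 - 2) ^ 2 + q 2 ^ 2 = 5 ∧ q 1 = 0)} ∧
    IsOneManifold (cliffordSpectrum A) := by
  have h : cliffordSpectrum tri = twoCircles :=
    Set.ext fun lam => mem_cliffordSpectrum_tri lam
  refine ⟨tri, tri_isHermitian, h, ?_⟩
  rw [h]
  exact isOneManifold_twoCircles

end Pool.Agent.Results.MP_782c7c_an.TwoCircles
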